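import Mathlib

set_option autoImplicit false

/-!
Dimension shift: vanishing of `Ext` from a resolution by projective modules.
-/

namespace Pool.Agent.W136.PT

universe u

open CategoryTheory

section

variable {R : Type u} [Ring R] [HasExt.{u} (ModuleCat.{u} R)]

/-- one step -/
theorem step (W : ModuleCat.{u} R) (P M : Type u) [AddCommGroup P] [Module R P]
    [AddCommGroup M] [Module R M] (hP : Module.Projective R P) (π : P →ₗ[R] M)
    (hπ : Function.Surjective π) (n : ℕ)
    (x : Abelian.Ext.{u} (ModuleCat.of R M) W (n + 1)) :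
    ∃ y : Abelian.Ext.{u} (ModuleCat.of R (LinearMap.ker π)) W n,
      (LinearMap.shortExact_shortComplexKer hπ).extClass.comp y (add_comm 1 n) = x := by
  haveI : Projective (ModuleCat.of R P) := ModuleCat.projective_of_categoryTheory_projective _
  haveI : Projective (LinearMap.shortComplexKer π).X₂ := this
  exact Abelian.Ext.contravariant_sequence_exact₃ (LinearMap.shortExact_shortComplexKer hπ) W x
    (Abelian.Ext.eq_zero_of_projective _) (add_comm 1 n)

theorem shift (W : Type u) [AddCommGroup W] [Module R W] : ∀ (i : ℕ) (M : Type u)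
    [AddCommGroup M] [Module R M] (P : ℕ → Type u) [∀ j, AddCommGroup (P j)]
    [∀ j, Module R (P j)] (_ : ∀ j, Module.Projective R (P j)) (d : ∀ j, P (j + 1) →ₗ[R] P j)
    (π : P 0 →ₗ[R] M) (_ : Function.Surjective π) (_ : Function.Exact (d 0) π)
    (_ : ∀ j, Function.Exact (d (j + 1)) (d j))
    (_ : ∀ φ : P (i + 1) →ₗ[R] W, φ ∘ₗ d (i + 1) = 0 → ∃ ψ : P i →ₗ[R] W, ψ ∘ₗ d i = φ),
    Subsingleton (Abelian.Ext.{u} (ModuleCat.of R M) (ModuleCat.of R W) (i + 1)) := by
  intro i
  induction i with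
  | zero =>
    intro M _ _ P _ _ hP d π hπ h0 h hW
    refine subsingleton_of_forall_eq 0 fun x => ?_
    obtain ⟨y, hy⟩ := step (ModuleCat.of R W) (P 0) M (hP 0) π hπ 0 x
    obtain ⟨f, rfl⟩ := (Abelian.Ext.mk₀_bijective _ _).2 y
    -- `f : ker π ⟶ W` extends to `P 0`
    have hmem : ∀ p : P 1, d 0 p ∈ LinearMap.ker π := fun p => by
      rw [LinearMap.mem_ker]
      exact (h0 (d 0 p)).2 ⟨p, rfl⟩
    obtain ⟨ψ, hψ⟩ := hW (f.hom ∘ₗ (d 0).codRestrict (LinearMap.ker π) hmem) (by
      apply LinearMap.ext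
      intro p
      have h1 : d 0 (d 1 p) = 0 := (h 0 (d 1 p)).2 ⟨p, rfl⟩
      have h2 : (d 0).codRestrict (LinearMap.ker π) hmem (d 1 p) = 0 := Subtype.ext h1
      simp only [LinearMap.comp_apply, LinearMap.zero_apply]
      rw [h2, map_zero])
    have hf : (LinearMap.shortComplexKer π).f ≫ ModuleCat.ofHom ψ = f := by
      ext z
      obtain ⟨p, hp⟩ := (h0 z.1).1 z.2
      have h3 := LinearMap.congr_fun hψ p
      simp only [LinearMap.comp_apply] at h3
      have h4 : (d 0).codRestrict (LinearMap.ker π) hmem p = z := Subtype.ext hp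
      rw [h4, hp] at h3
      exact h3
    rw [← hy, ← hf, ← Abelian.Ext.mk₀_comp_mk₀, ShortComplex.ShortExact.extClass_comp_assoc]
  | succ i ih =>
    intro M _ _ P _ _ hP d π hπ h0 h hW
    refine subsingleton_of_forall_eq 0 fun x => ?_
    obtain ⟨y, hy⟩ := step (ModuleCat.of R W) (P 0) M (hP 0) π hπ (i + 1) x
    have hmem : ∀ p : P 1, d 0 p ∈ LinearMap.ker π := fun p => by
      rw [LinearMap.mem_ker]
      exact (h0 (d 0 p)).2 ⟨p, rfl⟩
    have hs : Subsingleton (Abelian.Ext.{u} (ModuleCat.of R (LinearMap.ker π))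
        (ModuleCat.of R W) (i + 1)) := by
      refine ih (LinearMap.ker π) (fun j => P (j + 1)) (fun j => hP (j + 1))
        (fun j => d (j + 1)) ((d 0).codRestrict (LinearMap.ker π) hmem) ?_ ?_
        (fun j => h (j + 1)) hW
      · intro z
        obtain ⟨p, hp⟩ := (h0 z.1).1 z.2
        exact ⟨p, Subtype.ext hp⟩
      · intro p
        constructor
        · intro hp
          exact (h 0 p).1 (congrArg Subtype.val hp)
        · intro hp
          exact Subtype.ext ((h 0 p).2 hp)
    have hy0 : y = 0 := Subsingleton.elim _ _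
    rw [← hy, hy0, Abelian.Ext.comp_zero]

end

end Pool.Agent.W136.PT
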