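import Pool.Agent.W595.PT.Stms
import Pool.Agent.W136.PT.Shift

set_option autoImplicit false

/-!
Project PT, part EXT.
-/

namespace Pool.Agent.W136.PT

universe u

open CategoryTheory Pool.Agent.W595.PT Pool.Agent.W595.PT.Gam

section

variable {L : Type u} [Ring L]

/-- the idempotent -/
def ep (A : TC L) (i : ℕ) (v : Fin A.n) : Gam L := io (A.e v) * po (A.pos v + i)

theorem ep_ep (A : TC L) (i : ℕ) (v : Fin A.n) : ep A i v * ep A i v = ep A i v := by
  unfold ep
  rw [mul_assoc, ← mul_assoc (po _) (io _) (po _), ← io_po, mul_assoc, po_po, ← mul_assoc,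
    ← map_mul, A.ee]

/-- the projective modules -/
def Q (A : TC L) (i : ℕ) : Submodule (Gam L) (Fin A.n → Gam L) where
  carrier := {x | ∀ v, x v * ep A i v = x v}
  zero_mem' := by intro v; simp
  add_mem' := by
    intro x y hx hy v
    rw [Pi.add_apply, add_mul, hx v, hy v]
  smul_mem' := by
    intro c x hx v
    rw [Pi.smul_apply, smul_eq_mul, mul_assoc, hx v]

theorem mem_Q (A : TC L) (i : ℕ) (x : Fin A.n → Gam L) :
    x ∈ Q A i ↔ ∀ v, x v * ep A i v = x v := Iff.rfl

theorem Q_proj (A : TC L) (i : ℕ) : Module.Projective (Gam L) (Q A i) := by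
  let s : (Fin A.n → Gam L) →ₗ[Gam L] Q A i :=
    { toFun := fun x => ⟨fun v => x v * ep A i v, fun v => by
        show x v * ep A i v * ep A i v = x v * ep A i v
        rw [mul_assoc, ep_ep]⟩
      map_add' := by
        intro x y
        apply Subtype.ext
        funext v
        show (x v + y v) * ep A i v = x v * ep A i v + y v * ep A i v
        rw [add_mul]
      map_smul' := by
        intro c x
        apply Subtype.ext
        funext v
        show (c • x v) * ep A i v = c • (x v * ep A i v)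
        rw [smul_eq_mul, smul_eq_mul, mul_assoc] }
  refine Module.Projective.of_split (Q A i).subtype s ?_
  apply LinearMap.ext
  intro x
  apply Subtype.ext
  funext v
  exact x.2 v

/-- relation of `ep` with `io (m v w)` -/
theorem ep_m (A : TC L) (i : ℕ) (v w : Fin A.n) :
    ep A (i + 1) v * io (A.m v w) = io (A.m v w) * ep A i w := by
  unfold ep
  by_cases h : A.pos w = A.pos v + 1
  · rw [h, mul_assoc, ← io_po, ← mul_assoc, ← mul_assoc, ← map_mul, ← map_mul, A.em, A.me]
    congr 2
    omega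
  · rw [A.mpos v w h]
    simp

theorem ep_de (A : TC L) (i : ℕ) (v : Fin A.n) :
    ep A (i + 1) v * de = de * ep A i v := by
  unfold ep
  rw [mul_assoc, ← add_assoc, po_de, ← mul_assoc, ← mul_assoc, io_de]

theorem m_ep (A : TC L) (i : ℕ) (v w : Fin A.n) :
    io (A.m v w) * ep A i w = io (A.m v w) * po (A.pos w + i) := by
  unfold ep
  rw [← mul_assoc, ← map_mul, A.me]

/-- the differential of the resolution -/
def Rf (A : TC L) (x : Fin A.n → Gam L) : Fin A.n → Gam L :=
  fun w => x w * de + ∑ v, x v * io (A.m v w)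

theorem Rf_mem (A : TC L) (i : ℕ) (x : Fin A.n → Gam L) (hx : x ∈ Q A (i + 1)) :
    Rf A x ∈ Q A i := by
  intro w
  unfold Rf
  rw [add_mul, Finset.sum_mul]
  congr 1
  · rw [mul_assoc, ← ep_de, ← mul_assoc, hx w]
  · refine Finset.sum_congr rfl fun v _ => ?_
    rw [mul_assoc, ← ep_m, ← mul_assoc, hx v]

def R (A : TC L) (i : ℕ) : Q A (i + 1) →ₗ[Gam L] Q A i where
  toFun := fun x => ⟨Rf A x.1, Rf_mem A i x.1 x.2⟩
  map_add' := by
    intro x y
    apply Subtype.ext
    funext w
    show (x.1 w + y.1 w) * de + ∑ v, (x.1 v + y.1 v) * io (A.m v w)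
      = (x.1 w * de + ∑ v, x.1 v * io (A.m v w)) + (y.1 w * de + ∑ v, y.1 v * io (A.m v w))
    simp only [add_mul, Finset.sum_add_distrib]
    abel
  map_smul' := by
    intro c x
    apply Subtype.ext
    funext w
    show (c * x.1 w) * de + ∑ v, (c * x.1 v) * io (A.m v w)
      = c * (x.1 w * de + ∑ v, x.1 v * io (A.m v w))
    simp only [mul_add, Finset.mul_sum, mul_assoc]

theorem R_apply (A : TC L) (i : ℕ) (x : Q A (i + 1)) (w : Fin A.n) :
    (R A i x).1 w = x.1 w * de + ∑ v, x.1 v * io (A.m v w) := rfl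

/-- generators of `A.Y` -/
def gg (A : TC L) (v : Fin A.n) : A.Y := TC.Y.mk (fun w => if v = w then A.e v else 0) (by
  intro w
  by_cases h : v = w
  · subst h; simp [A.ee]
  · simp [h])

theorem gg_c (A : TC L) (v w : Fin A.n) : (gg A v).c w = if v = w then A.e v else 0 := rfl

theorem smul_gg (A : TC L) (x : Gam L) (v w : Fin A.n) :
    (x • gg A v).c w = (if v = w then aN x (A.pos w) * A.e w else 0)
      + bN x (A.pos v) * A.m v w := by
  rw [TC.Y.c_smul]
  congr 1
  · rw [gg_c]
    by_cases h : v = w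
    · subst h; simp
    · simp [h]
  · rw [Finset.sum_eq_single v]
    · rw [gg_c, if_pos rfl, mul_assoc, A.em]
    · intro z _ hz
      rw [gg_c, if_neg (Ne.symm hz)]
      simp
    · intro h
      exact absurd (Finset.mem_univ v) h

/-- the augmentation -/
def pi0 (A : TC L) : (Fin A.n → Gam L) →ₗ[Gam L] A.Y :=
  ∑ v, (LinearMap.toSpanSingleton (Gam L) A.Y (gg A v)) ∘ₗ LinearMap.proj v

theorem pi0_apply (A : TC L) (x : Fin A.n → Gam L) : pi0 A x = ∑ v, x v • gg A v := by
  unfold pi0
  rw [LinearMap.sum_apply]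
  rfl

theorem pi0_c (A : TC L) (x : Fin A.n → Gam L) (w : Fin A.n) :
    (pi0 A x).c w = aN (x w) (A.pos w) * A.e w + ∑ v, bN (x v) (A.pos v) * A.m v w := by
  rw [pi0_apply, TC.Y.c_sum]
  simp only [smul_gg]
  rw [Finset.sum_add_distrib, Finset.sum_ite_eq' Finset.univ w, if_pos (Finset.mem_univ w)]

def pi (A : TC L) : Q A 0 →ₗ[Gam L] A.Y := (pi0 A).domRestrict (Q A 0)

theorem pi_apply (A : TC L) (x : Q A 0) : pi A x = pi0 A x.1 := rfl

theorem pi_surj (A : TC L) : Function.Surjective (pi A) := by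
  intro y
  refine ⟨⟨fun v => io (y.c v) * po (A.pos v), fun v => ?_⟩, ?_⟩
  · show io (y.c v) * po (A.pos v) * ep A 0 v = io (y.c v) * po (A.pos v)
    unfold ep
    rw [add_zero, mul_assoc, ← mul_assoc (po _) (io _) (po _), ← io_po, mul_assoc, po_po,
      ← mul_assoc, ← map_mul, y.c_e]
  · rw [pi_apply]
    apply TC.Y.ext
    intro w
    rw [pi0_c]
    have h1 : ∀ v, bN (io (y.c v) * po (A.pos v)) (A.pos v) = 0 := by
      intro v
      rw [bN_mul, bN_po, bN_io, mul_zero, zero_mul, add_zero]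
    rw [Finset.sum_eq_zero (fun v _ => by rw [h1 v, zero_mul]), add_zero, aN_mul,
      aN_io _ (A.hpos w), aN_po _ (A.hpos w), if_pos rfl, mul_one, y.c_e]

/-- the diagonal coefficient of an element of `Q` -/
theorem aN_Q (A : TC L) (i : ℕ) (x : Q A i) (v : Fin A.n) (p : ℕ) (hp : p < 7) :
    aN (x.1 v) p = if p = A.pos v + i then aN (x.1 v) p * A.e v else 0 := by
  conv_lhs => rw [← x.2 v]
  unfold ep
  rw [aN_mul, aN_mul, aN_io _ hp, aN_po _ hp]
  by_cases h : p = A.pos v + i
  · rw [if_pos h, if_pos h, mul_one]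
  · rw [if_neg h, if_neg h, mul_zero, mul_zero]

theorem bN_Q (A : TC L) (i : ℕ) (x : Q A i) (v : Fin A.n) (p : ℕ) (hp : p < 6) :
    bN (x.1 v) p = if p = A.pos v + i then bN (x.1 v) p * A.e v else 0 := by
  have h7 : p < 7 := by omega
  conv_lhs => rw [← x.2 v]
  unfold ep
  rw [bN_mul, bN_mul, aN_mul, aN_io _ h7, aN_po _ h7, bN_po, bN_io, mul_zero, zero_mul,
    add_zero, mul_zero, zero_add]
  by_cases h : p = A.pos v + i
  · rw [if_pos h, if_pos h, mul_one]
  · rw [if_neg h, if_neg h, mul_zero, mul_zero]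

/-- the candidate for a preimage -/
def pre (A : TC L) (i : ℕ) (x : Fin A.n → Gam L) : Fin A.n → Gam L :=
  fun v => io (bN (x v) (A.pos v + i)) * po (A.pos v + i + 1)

theorem bN_large (x : Gam L) (p : ℕ) (hp : ¬ p < 6) : bN x p = 0 := by
  simp [bN, hp]

theorem bN_Q_e (A : TC L) (i : ℕ) (x : Q A i) (v : Fin A.n) :
    bN (x.1 v) (A.pos v + i) * A.e v = bN (x.1 v) (A.pos v + i) := by
  by_cases h : A.pos v + i < 6
  · have := bN_Q A i x v _ h
    rw [if_pos rfl] at this
    exact this.symm
  · rw [bN_large _ _ h, zero_mul]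

theorem pre_mem (A : TC L) (i : ℕ) (x : Q A i) : pre A i x.1 ∈ Q A (i + 1) := by
  intro v
  unfold pre ep
  rw [mul_assoc, ← mul_assoc (po _) (io _) (po _), ← io_po, mul_assoc, ← add_assoc, po_po,
    ← mul_assoc, ← map_mul, bN_Q_e]

/-- exactness, assuming the relation for the diagonal coefficients -/
theorem R_pre (A : TC L) (i : ℕ) (x : Q A i)
    (hx : ∀ w, A.pos w + i < 7 →
      aN (x.1 w) (A.pos w + i) = ∑ v, bN (x.1 v) (A.pos v + i) * A.m v w) :
    R A i ⟨pre A i x.1, pre_mem A i x⟩ = x := by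
  apply Subtype.ext
  funext w
  rw [R_apply]
  show pre A i x.1 w * de + ∑ v, pre A i x.1 v * io (A.m v w) = x.1 w
  have hs : ∀ (s : Finset (Fin A.n)) (f : Fin A.n → Gam L) (p : ℕ),
      aN (∑ v ∈ s, f v) p = ∑ v ∈ s, aN (f v) p := by
    intro s f p
    induction s using Finset.induction_on with
    | empty => simp
    | insert z s hz ih => rw [Finset.sum_insert hz, Finset.sum_insert hz, aN_add, ih]
  have ht : ∀ (s : Finset (Fin A.n)) (f : Fin A.n → Gam L) (p : ℕ),
      bN (∑ v ∈ s, f v) p = ∑ v ∈ s, bN (f v) p := by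
    intro s f p
    induction s using Finset.induction_on with
    | empty => simp
    | insert z s hz ih => rw [Finset.sum_insert hz, Finset.sum_insert hz, bN_add, ih]
  apply ext_aN_bN
  · intro p hp
    rw [aN_add, aN_mul, aN_de, mul_zero, zero_add, hs]
    have h1 : ∀ v, aN (pre A i x.1 v * io (A.m v w)) p
        = if p = A.pos w + i then bN (x.1 v) (A.pos v + i) * A.m v w else 0 := by
      intro v
      unfold pre
      rw [aN_mul, aN_mul, aN_io _ hp, aN_io _ hp, aN_po _ hp]
      by_cases h : A.pos w = A.pos v + 1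
      · by_cases h2 : p = A.pos w + i
        · rw [if_pos h2, if_pos (by omega), mul_one]
        · rw [if_neg h2, if_neg (by omega), mul_zero, zero_mul]
      · rw [A.mpos v w h, mul_zero, mul_zero, ite_self]
    rw [Finset.sum_congr rfl fun v _ => h1 v]
    by_cases h2 : p = A.pos w + i
    · subst h2
      simp only [if_true]
      rw [← hx w hp]
    · simp only [if_neg h2, Finset.sum_const_zero]
      rw [aN_Q A i x w p hp, if_neg h2]
  · intro p hp
    have h7 : p < 7 := by omega
    have h71 : p + 1 < 7 := by omega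
    rw [bN_add, bN_mul, bN_de hp, aN_de, mul_zero, add_zero, mul_one, ht]
    have h1 : ∀ v, bN (pre A i x.1 v * io (A.m v w)) p = 0 := by
      intro v
      unfold pre
      rw [bN_mul, bN_mul, bN_io, bN_io, bN_po, mul_zero, mul_zero, zero_mul, add_zero, zero_mul,
        add_zero]
    rw [Finset.sum_eq_zero (fun v _ => h1 v), add_zero]
    unfold pre
    rw [aN_mul, aN_io _ h71, aN_po _ h71]
    by_cases h2 : p = A.pos w + i
    · subst h2
      rw [if_pos rfl, mul_one]
    · rw [if_neg (by omega), mul_zero, bN_Q A i x w p hp, if_neg h2]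

theorem two_gam (h2 : (2 : L) = 0) (x : Gam L) : x + x = 0 := by
  have h : ∀ y : L, y + y = 0 := by
    intro y
    rw [← two_mul, h2, zero_mul]
  ext q
  · exact h _
  · exact h _

theorem pi_R (h2 : (2 : L) = 0) (A : TC L) (x : Q A 1) : pi A (R A 0 x) = 0 := by
  have h1 : ∀ y : L, y + y = 0 := by
    intro y
    rw [← two_mul, h2, zero_mul]
  have hde : ∀ v, (de : Gam L) • gg A v = ∑ w, io (A.m v w) • gg A w := by
    intro v
    apply TC.Y.ext
    intro w
    rw [smul_gg, TC.Y.c_sum]
    simp only [smul_gg]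
    rw [aN_de, zero_mul, ite_self, zero_add]
    have e1 : ∀ z, (if z = w then aN (io (A.m v z)) (A.pos w) * A.e w else 0)
        + bN (io (A.m v z)) (A.pos z) * A.m z w = if z = w then A.m v w else 0 := by
      intro z
      rw [bN_io, zero_mul, add_zero]
      by_cases hz : z = w
      · subst hz
        rw [if_pos rfl, if_pos rfl, aN_io _ (A.hpos z), A.me]
      · rw [if_neg hz, if_neg hz]
    rw [Finset.sum_congr rfl fun z _ => e1 z, Finset.sum_ite_eq' Finset.univ w,
      if_pos (Finset.mem_univ w)]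
    by_cases h6 : A.pos v < 6
    · rw [bN_de h6, one_mul]
    · rw [A.mpos v w (by have := A.hpos w; omega), mul_zero]
  rw [pi_apply, pi0_apply]
  simp only [R_apply]
  have e2 : ∀ w, (x.1 w * de + ∑ v, x.1 v * io (A.m v w)) • gg A w
      = x.1 w • ((de : Gam L) • gg A w) + ∑ v, x.1 v • (io (A.m v w) • gg A w) := by
    intro w
    rw [add_smul, Finset.sum_smul, mul_smul]
    congr 1
    refine Finset.sum_congr rfl fun v _ => ?_
    rw [mul_smul]
  rw [Finset.sum_congr rfl fun w _ => e2 w, Finset.sum_add_distrib, Finset.sum_comm]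
  have e3 : ∀ v, ∑ w, x.1 v • (io (A.m v w) • gg A w) = x.1 v • ((de : Gam L) • gg A v) := by
    intro v
    rw [← Finset.smul_sum, hde]
  rw [Finset.sum_congr rfl fun v _ => e3 v, ← Finset.sum_add_distrib]
  refine Finset.sum_eq_zero fun v _ => ?_
  rw [← add_smul, two_gam h2, zero_smul]

theorem R_R (h2 : (2 : L) = 0) (A : TC L) (i : ℕ) (x : Q A (i + 2)) :
    R A i (R A (i + 1) x) = 0 := by
  apply Subtype.ext
  funext w
  rw [R_apply]
  simp only [R_apply]
  show (x.1 w * de + ∑ v, x.1 v * io (A.m v w)) * de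
    + ∑ v, (x.1 v * de + ∑ z, x.1 z * io (A.m z v)) * io (A.m v w) = 0
  have e1 : (x.1 w * de + ∑ v, x.1 v * io (A.m v w)) * de
      = ∑ v, x.1 v * io (A.m v w) * de := by
    rw [add_mul, mul_assoc, de_de, mul_zero, zero_add, Finset.sum_mul]
  have e2 : ∑ v, (x.1 v * de + ∑ z, x.1 z * io (A.m z v)) * io (A.m v w)
      = ∑ v, x.1 v * io (A.m v w) * de := by
    have e3 : ∀ v, (x.1 v * de + ∑ z, x.1 z * io (A.m z v)) * io (A.m v w)
        = x.1 v * io (A.m v w) * de + ∑ z, x.1 z * io (A.m z v * A.m v w) := by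
      intro v
      rw [add_mul, Finset.sum_mul, mul_assoc, ← io_de, ← mul_assoc]
      congr 1
      refine Finset.sum_congr rfl fun z _ => ?_
      rw [mul_assoc, ← map_mul]
    rw [Finset.sum_congr rfl fun v _ => e3 v, Finset.sum_add_distrib, Finset.sum_comm]
    have e4 : ∀ z, ∑ v, x.1 z * io (A.m z v * A.m v w) = 0 := by
      intro z
      rw [← Finset.mul_sum, ← map_sum, A.mm, map_zero, mul_zero]
    rw [Finset.sum_eq_zero (fun z _ => e4 z), add_zero]
  rw [e1, e2, two_gam h2]

theorem exact_pi (h2 : (2 : L) = 0) (A : TC L) : Function.Exact (R A 0) (pi A) := by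
  have h1 : ∀ y z : L, y + z = 0 → y = z := by
    intro y z h
    have hz : z + z = 0 := by rw [← two_mul, h2, zero_mul]
    exact add_right_cancel (h.trans hz.symm)
  intro x
  constructor
  · intro hx
    refine ⟨⟨pre A 0 x.1, pre_mem A 0 x⟩, R_pre A 0 x ?_⟩
    intro w hw
    have h3 : (pi A x).c w = 0 := by rw [hx]; rfl
    rw [pi_apply, pi0_c] at h3
    have h4 := h1 _ _ h3
    have h5 := aN_Q A 0 x w (A.pos w + 0) hw
    rw [if_pos rfl] at h5
    rw [h5]
    exact h4
  · rintro ⟨y, rfl⟩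
    exact pi_R h2 A y

theorem exact_R (h2 : (2 : L) = 0) (A : TC L) (i : ℕ) :
    Function.Exact (R A (i + 1)) (R A i) := by
  have h1 : ∀ y z : L, y + z = 0 → y = z := by
    intro y z h
    have hz : z + z = 0 := by rw [← two_mul, h2, zero_mul]
    exact add_right_cancel (h.trans hz.symm)
  have ht : ∀ (s : Finset (Fin A.n)) (f : Fin A.n → Gam L) (p : ℕ),
      bN (∑ v ∈ s, f v) p = ∑ v ∈ s, bN (f v) p := by
    intro s f p
    induction s using Finset.induction_on with
    | empty => simp
    | insert z s hz ih => rw [Finset.sum_insert hz, Finset.sum_insert hz, bN_add, ih]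
  intro x
  constructor
  · intro hx
    refine ⟨⟨pre A (i + 1) x.1, pre_mem A (i + 1) x⟩, R_pre A (i + 1) x ?_⟩
    intro w hw
    have h3 : (R A i x).1 w = 0 := by rw [hx]; rfl
    rw [R_apply] at h3
    have hp : A.pos w + i < 6 := by omega
    have h4 : bN (x.1 w * de + ∑ v, x.1 v * io (A.m v w)) (A.pos w + i) = 0 := by
      rw [h3, bN_zero]
    rw [bN_add, bN_mul, bN_de hp, aN_de, mul_zero, add_zero, mul_one, ht] at h4
    have h5 := h1 _ _ h4
    rw [← add_assoc, h5]
    refine Finset.sum_congr rfl fun v _ => ?_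
    rw [bN_mul, bN_io, mul_zero, zero_add, aN_io _ (by omega)]
    by_cases h : A.pos w = A.pos v + 1
    · rw [h]
      congr 2
      omega
    · rw [A.mpos v w h, mul_zero, mul_zero]
  · rintro ⟨y, rfl⟩
    exact R_R h2 A i y

/-- generators of `Q` -/
def gen (A : TC L) (i : ℕ) (v : Fin A.n) : Q A i := ⟨fun w => if v = w then ep A i v else 0, by
  intro w
  by_cases h : v = w
  · subst h
    simp only [if_true]
    exact ep_ep A i v
  · simp only [if_neg h, zero_mul]⟩

theorem gen_apply (A : TC L) (i : ℕ) (v w : Fin A.n) :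
    (gen A i v).1 w = if v = w then ep A i v else 0 := rfl

theorem coe_sum (A : TC L) (i : ℕ) (s : Finset (Fin A.n)) (f : Fin A.n → Q A i)
    (w : Fin A.n) : (∑ v ∈ s, f v).1 w = ∑ v ∈ s, (f v).1 w := by
  induction s using Finset.induction_on with
  | empty => simp
  | insert z s hz ih =>
    rw [Finset.sum_insert hz, Finset.sum_insert hz, ← ih]
    rfl

theorem gen_span (A : TC L) (i : ℕ) (x : Q A i) : x = ∑ v, x.1 v • gen A i v := by
  apply Subtype.ext
  funext w
  rw [coe_sum]
  have h1 : ∀ v, (x.1 v • gen A i v).1 w = if v = w then x.1 w * ep A i w else 0 := by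
    intro v
    show x.1 v * (gen A i v).1 w = _
    rw [gen_apply]
    by_cases h : v = w
    · subst h; simp
    · simp [h]
  rw [Finset.sum_congr rfl fun v _ => h1 v, Finset.sum_ite_eq' Finset.univ w,
    if_pos (Finset.mem_univ w)]
  exact (x.2 w).symm

theorem R_gen (A : TC L) (i : ℕ) (v : Fin A.n) :
    R A i (gen A (i + 1) v) = (de : Gam L) • gen A i v + ∑ z, io (A.m v z) • gen A i z := by
  apply Subtype.ext
  funext w
  rw [R_apply]
  have h1 : ((de : Gam L) • gen A i v + ∑ z, io (A.m v z) • gen A i z).1 w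
      = de * (gen A i v).1 w + ∑ z, io (A.m v z) * (gen A i z).1 w := by
    show de * (gen A i v).1 w + (∑ z, io (A.m v z) • gen A i z).1 w = _
    rw [coe_sum]
    rfl
  rw [h1]
  congr 1
  · rw [gen_apply, gen_apply]
    by_cases h : v = w
    · subst h; simp only [if_true]; exact ep_de A i v
    · simp [h]
  · rw [Finset.sum_eq_single v, Finset.sum_eq_single w]
    · rw [gen_apply, gen_apply, if_pos rfl, if_pos rfl, ep_m]
    · intro z _ hz
      rw [gen_apply, if_neg hz, mul_zero]
    · intro h; exact absurd (Finset.mem_univ w) h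
    · intro z _ hz
      rw [gen_apply, if_neg (Ne.symm hz), zero_mul]
    · intro h; exact absurd (Finset.mem_univ v) h

end

theorem s_EXT : S_EXT.{u} := by
  intro L _ h2 A W _ _ i hex _
  refine shift W i A.Y (fun j => Q A j) (fun j => Q_proj A j) (fun j => R A j) (pi A)
    (pi_surj A) (exact_pi h2 A) (fun j => exact_R h2 A j) ?_
  intro φ hφ
  have hE : A.IsE (i + 1) (fun v => φ (gen A (i + 1) v)) := by
    intro v
    show (io (A.e v) * po (A.pos v + (i + 1))) • φ (gen A (i + 1) v) = φ (gen A (i + 1) v)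
    rw [← map_smul]
    congr 1
    apply Subtype.ext
    funext w
    show ep A (i + 1) v * (gen A (i + 1) v).1 w = (gen A (i + 1) v).1 w
    rw [gen_apply]
    by_cases h : v = w
    · subst h; simp only [if_true]; exact ep_ep A (i + 1) v
    · simp [h]
  have hD : A.D (fun v => φ (gen A (i + 1) v)) = 0 := by
    funext v
    show (de : Gam L) • φ (gen A (i + 1) v) + ∑ z, io (A.m v z) • φ (gen A (i + 1) z) = 0
    have h3 : (de : Gam L) • φ (gen A (i + 1) v) + ∑ z, io (A.m v z) • φ (gen A (i + 1) z)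
        = φ ((de : Gam L) • gen A (i + 1) v + ∑ z, io (A.m v z) • gen A (i + 1) z) := by
      rw [map_add, map_smul, map_sum]
      congr 1
      refine Finset.sum_congr rfl fun z _ => ?_
      rw [map_smul]
    rw [h3, ← R_gen]
    exact LinearMap.congr_fun hφ _
  obtain ⟨z, _, hz⟩ := hex _ hE hD
  let ψ0 : (Fin A.n → Gam L) →ₗ[Gam L] W :=
    ∑ v, (LinearMap.toSpanSingleton (Gam L) W (z v)) ∘ₗ LinearMap.proj v
  have hψ0 : ∀ x, ψ0 x = ∑ v, x v • z v := by
    intro x
    show (∑ v, (LinearMap.toSpanSingleton (Gam L) W (z v)) ∘ₗ LinearMap.proj v) x = _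
    rw [LinearMap.sum_apply]
    rfl
  refine ⟨ψ0.domRestrict (Q A i), ?_⟩
  apply LinearMap.ext
  intro x
  show ψ0 (R A i x).1 = φ x
  rw [hψ0]
  simp only [R_apply]
  have e2 : ∀ w, (x.1 w * de + ∑ v, x.1 v * io (A.m v w)) • z w
      = x.1 w • ((de : Gam L) • z w) + ∑ v, x.1 v • (io (A.m v w) • z w) := by
    intro w
    rw [add_smul, Finset.sum_smul, mul_smul]
    congr 1
    refine Finset.sum_congr rfl fun v _ => ?_
    rw [mul_smul]
  rw [Finset.sum_congr rfl fun w _ => e2 w, Finset.sum_add_distrib, Finset.sum_comm,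
    ← Finset.sum_add_distrib]
  have e3 : ∀ v, x.1 v • ((de : Gam L) • z v) + ∑ w, x.1 v • (io (A.m v w) • z w)
      = x.1 v • φ (gen A (i + 1) v) := by
    intro v
    rw [← Finset.smul_sum, ← smul_add]
    congr 1
    exact congrFun hz v
  rw [Finset.sum_congr rfl fun v _ => e3 v]
  conv_rhs => rw [gen_span A (i + 1) x, map_sum]
  refine Finset.sum_congr rfl fun v _ => ?_
  rw [map_smul]

end Pool.Agent.W136.PT
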